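import Pool.Agent.Strip051.Front

/-! # Elementary inequalities for the unit circle `g` and for the lattice directions -/

namespace Pool.Agent.Strip051.N2

open Pool.Agent.StripNear Pool.Agent.StripSquare Pool.Agent.Strip051

theorem le_g {x a : ℝ} (h : a ^ 2 + x ^ 2 ≤ 1) : a ≤ g x := by
  unfold g
  exact Real.le_sqrt_of_sq_le (by linear_combination h)

theorem g_le {x a : ℝ} (ha : 0 ≤ a) (h : 1 ≤ a ^ 2 + x ^ 2) : g x ≤ a := by
  unfold g
  rw [Real.sqrt_le_left ha]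
  linear_combination h

theorem g_eq {x a : ℝ} (ha : 0 ≤ a) (h : a ^ 2 + x ^ 2 = 1) : g x = a :=
  le_antisymm (g_le ha h.ge) (le_g h.le)

theorem g_pos {x : ℝ} (h : x ^ 2 < 1) : 0 < g x := by
  unfold g
  exact Real.sqrt_pos.2 (by linear_combination h)

theorem g_mul_le {x y : ℝ} (hx : x ^ 2 ≤ 1) (hy : y ^ 2 ≤ 1) : g x * g y ≤ 1 - x * y := by
  have h1 := g_sq hx
  have h2 := g_sq hy
  linear_combination (1 / 2) * (sq_nonneg (g x - g y)) + (1 / 2) * (sq_nonneg (x - y)) +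
    (1 / 2) * h1 + (1 / 2) * h2

/-- The tangent at `y`. -/
theorem g_le_tan {x y : ℝ} (hx : x ^ 2 ≤ 1) (hy : y ^ 2 < 1) :
    g x ≤ g y - y / g y * (x - y) := by
  have h0 := g_pos hy
  have h1 := g_mul_le hx hy.le
  have h2 := g_sq hy.le
  have h3 : g y - y / g y * (x - y) = (1 - x * y) / g y := by
    field_simp
    linear_combination h2
  rw [h3, le_div_iff₀ h0]
  exact h1

theorem g_sub_mul {x y : ℝ} (hx : x ^ 2 ≤ 1) (hy : y ^ 2 ≤ 1) :
    (g x - g y) * (g x + g y) = y ^ 2 - x ^ 2 := by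
  have h1 := g_sq hx
  have h2 := g_sq hy
  linear_combination h1 - h2

/-- The increments of `g` over intervals of length `a` decrease. -/
theorem shift_mono {a x x' : ℝ} (ha : 0 ≤ a) (hx : x ≤ x') (h1 : -1 ≤ x - a) (h2 : x' ≤ 1) :
    g (x - a) - g x ≤ g (x' - a) - g x' := by
  have := four (x := x - a) (y := x) (z := x' - a) (w := x') h1 h2 (by linear_combination ha) hx (by ring)
  linear_combination this

/-- A direction of a side of the unit triangle lattice: `S = sin θ`, `C = cos θ`, `0 ≤ θ ≤ 30°`,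
`p = sin (60° - θ)`, `q = sin (60° + θ)`. -/
structure Ang (C S p q : ℝ) : Prop where
  sq : C ^ 2 + S ^ 2 = 1
  S0 : 0 ≤ S
  S1 : S ≤ 1 / 2
  C0 : 0 ≤ C
  hp : p = h0 * C - S / 2
  hq : q = h0 * C + S / 2

section

variable {C S p q : ℝ} (hA : Ang C S p q)
include hA

theorem Ang.C_le : C ≤ 1 := by exact not_lt.mp (fun hg__ => absurd hg__ (not_lt.mpr (by linear_combination (1 / 2) * (sq_nonneg (S)) + (1 / 2) * hA.sq + (1 / 2) * (mul_pos (sub_pos.mpr hg__) (sub_pos.mpr hg__)))))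

theorem Ang.h_le_C : h0 ≤ C := by
  have h1 := h0_sq
  have h2 := h0_pos
  exact not_lt.mp (fun hg__ => absurd hA.S1 (not_le.mpr (by linear_combination -2 * hA.sq + 2 * h1 + 2 * (mul_nonneg (sub_nonneg.mpr hA.S0) (sub_nonneg.mpr hA.S1)) + 2 * (mul_pos (sub_pos.mpr hg__) (sub_pos.mpr hg__)) + 4 * (mul_nonneg (sub_nonneg.mpr (le_of_lt hg__)) (sub_nonneg.mpr hA.C0)))))

theorem Ang.gp : g p = C / 2 + h0 * S := by
  have h1 := h0_sq
  have h2 := h0_pos
  apply g_eq
  · have := mul_nonneg h2.le hA.S0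
    linear_combination (1 / 2) * hA.C0 + this
  · rw [hA.hp]
    have := hA.sq
    nlinarith

theorem Ang.S_le : h0 * S ≤ C / 2 := by
  have h2 := h0_pos
  have := hA.h_le_C
  linear_combination (1 / 2) * this + (mul_nonneg (sub_nonneg.mpr hA.S1) (sub_nonneg.mpr (le_of_lt h2)))

theorem Ang.gq : g q = C / 2 - h0 * S := by
  have h1 := h0_sq
  have h2 := h0_pos
  apply g_eq
  · have := hA.S_le
    linear_combination this
  · rw [hA.hq]
    have := hA.sq
    nlinarith

theorem Ang.gS : g S = C := g_eq hA.C0 hA.sq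

theorem Ang.p_ge : 1 / 2 ≤ p := by
  rw [hA.hp]
  have h1 := h0_sq
  have h2 := h0_pos
  have := hA.h_le_C
  linear_combination (1 / 2) * hA.S1 - h1 + (mul_nonneg (sub_nonneg.mpr (le_of_lt h2)) (sub_nonneg.mpr this))

theorem Ang.q_le : q ≤ 1 := by
  rw [hA.hq]
  have h1 := h0_sq
  have h2 := h0_pos
  have := hA.h_le_C
  have := hA.sq
  linear_combination (1 / 2) * (sq_nonneg (C - h0)) + (1 / 2) * (sq_nonneg (S - 1 / 2)) +
    (1 / 2) * h1 + (1 / 2) * this

theorem Ang.h_le_q : h0 ≤ q := by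
  rw [hA.hq]
  have h1 := h0_sq
  have h2 := h0_pos
  have h3 := hA.h_le_C
  have h4 := hA.C_le
  have h5 := hA.sq
  -- `h0 (1 - C) ≤ S / 2`, where `(1 - C) (1 + C) = S ^ 2`
  have h6 : (1 - C) * (1 + C) = S ^ 2 := by linear_combination -h5
  have h7 : 1 - C ≤ S ^ 2 / (1 + h0) := by
    rw [le_div_iff₀ (by linear_combination h2)]
    linear_combination -h5 + (mul_nonneg (sub_nonneg.mpr h3) (sub_nonneg.mpr h4))
  have h8 : S ^ 2 / (1 + h0) ≤ S / 2 / (1 + h0) := by
    apply div_le_div_of_nonneg_right _ (by linear_combination h2)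
    linear_combination (mul_nonneg (sub_nonneg.mpr hA.S0) (sub_nonneg.mpr hA.S1))
  have h9 : h0 * (S / 2 / (1 + h0)) ≤ S / 2 := by
    have : S / 2 / (1 + h0) ≤ S / 2 := by
      apply div_le_self
      · linear_combination (1 / 2) * hA.S0
      · linear_combination h2
    have := hA.S0
    have h10 : h0 ≤ 1 := by linear_combination h3 + h4
    linear_combination (‹S / 2 / (1 + h0) ≤ S / 2›) + (mul_nonneg (sub_nonneg.mpr h3) (sub_nonneg.mpr h4)) +
      (mul_nonneg (sub_nonneg.mpr h3) (sub_nonneg.mpr h7)) + (mul_nonneg (sub_nonneg.mpr h3) (sub_nonneg.mpr h8)) +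
      (mul_nonneg (sub_nonneg.mpr h4) (sub_nonneg.mpr h4)) + (mul_nonneg (sub_nonneg.mpr h4) (sub_nonneg.mpr h7)) +
      (mul_nonneg (sub_nonneg.mpr h4) (sub_nonneg.mpr h8))
  linear_combination h9 + (mul_nonneg (sub_nonneg.mpr (le_of_lt h2)) (sub_nonneg.mpr h7)) +
    (mul_nonneg (sub_nonneg.mpr (le_of_lt h2)) (sub_nonneg.mpr h8))

theorem Ang.p_le_h : p ≤ h0 := by
  rw [hA.hp]
  have h2 := h0_pos
  linear_combination (1 / 2) * hA.S0 + (mul_nonneg (sub_nonneg.mpr hA.C_le) (sub_nonneg.mpr (le_of_lt h2)))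

theorem Ang.q_sub : q - p = S := by
  rw [hA.hp, hA.hq]
  ring

end

/-- The direction with given `p`. -/
theorem ang_of_p {r : ℝ} (h1 : 1 / 2 ≤ r) (h2 : r ≤ h0) :
    Ang (h0 * r + g r / 2) (h0 * g r - r / 2) r (r / 2 + h0 * g r) := by
  have k1 := h0_sq
  have k2 := h0_pos
  have k3 : r ^ 2 ≤ 1 := by linear_combination h2 + k1 + 2 * (mul_nonneg (sub_nonneg.mpr h1) (sub_nonneg.mpr h2)) +
    (mul_nonneg (sub_nonneg.mpr h2) (sub_nonneg.mpr h2))
  have k4 := g_sq k3
  have k5 := g_nonneg r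
  have k6 : 1 / 2 ≤ g r := le_g (by linear_combination h2 + k1 + 2 * (mul_nonneg (sub_nonneg.mpr h1) (sub_nonneg.mpr h2)) +
    (mul_nonneg (sub_nonneg.mpr h2) (sub_nonneg.mpr h2)))
  have k7 : g r ≤ h0 := g_le k2.le (by linear_combination h1 - k1 + (mul_nonneg (sub_nonneg.mpr h1) (sub_nonneg.mpr h1)))
  exact
    { sq := by nlinarith
      S0 := by linear_combination (1 / 2) * k6 + (mul_nonneg (sub_nonneg.mpr h1) (sub_nonneg.mpr k6)) +
        (mul_nonneg (sub_nonneg.mpr h2) (sub_nonneg.mpr k5))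
      S1 := by linear_combination (1 / 2) * h1 + k1 + (1 / 2) * k7 + (mul_nonneg (sub_nonneg.mpr h1) (sub_nonneg.mpr k7)) +
        (mul_nonneg (sub_nonneg.mpr h2) (sub_nonneg.mpr k7))
      C0 := by positivity
      hp := by nlinarith
      hq := by nlinarith }

/-- The direction with given `q`. -/
theorem ang_of_q {r : ℝ} (h1 : h0 ≤ r) (h2 : r ≤ 1) :
    Ang (h0 * r + g r / 2) (r / 2 - h0 * g r) (r / 2 + h0 * g r) r := by
  have k1 := h0_sq
  have k2 := h0_pos
  have k3 : r ^ 2 ≤ 1 := by linear_combination h2 + (mul_nonneg (sub_nonneg.mpr h1) (sub_nonneg.mpr h2)) + (mul_nonneg (sub_nonneg.mpr h2) (sub_nonneg.mpr (le_of_lt k2)))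
  have k4 := g_sq k3
  have k5 := g_nonneg r
  have k7 : g r ≤ 1 / 2 := g_le (by norm_num) (by linear_combination -k1 + (mul_nonneg (sub_nonneg.mpr h1) (sub_nonneg.mpr h1)) + 2 * (mul_nonneg (sub_nonneg.mpr h1) (sub_nonneg.mpr (le_of_lt k2))))
  have k8 : 0 ≤ r := k2.le.trans h1
  exact
    { sq := by nlinarith
      S0 := by linear_combination (1 / 2) * h1 + (mul_nonneg (sub_nonneg.mpr (le_of_lt k2)) (sub_nonneg.mpr k7))
      S1 := by linear_combination (1 / 2) * h2 + (mul_nonneg (sub_nonneg.mpr (le_of_lt k2)) (sub_nonneg.mpr k5))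
      C0 := by positivity
      hp := by nlinarith
      hq := by nlinarith }

end Pool.Agent.Strip051.N2
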