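import Pool.Agent.Strip051.N2.MidG

/-! # The one-variable inequality at the edge `q - δ = h0` -/

namespace Pool.Agent.Strip051.N2

open Pool.Agent.StripNear Pool.Agent.StripSquare Pool.Agent.Strip051

variable {C S p q : ℝ}

theorem Ang.K_eq (hA : Ang C S p q) : (1 - C) * (1 + C) = S ^ 2 := by
  linear_combination -hA.sq

theorem Ang.K_le (hA : Ang C S p q) : 1 - C ≤ 27 / 50 * S ^ 2 := by
  have h1 := hA.K_eq
  have h2 := hA.h_le_C
  have h3 := h0_gt
  have h4 := hA.C_le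
  nlinarith [mul_nonneg (sub_nonneg.2 h4) (show (0:ℝ) ≤ 1 + C - 1.866 by linear_combination h2 + h3)]

theorem Ang.K_ge (hA : Ang C S p q) : S ^ 2 / 2 ≤ 1 - C := by
  have h1 := hA.K_eq
  have h4 := hA.C_le
  linear_combination -(1 / 2) * h1 + (1 / 2) * (mul_nonneg (sub_nonneg.mpr h4) (sub_nonneg.mpr h4))

theorem le_of_sq_le_sq' {a b : ℝ} (h : a ^ 2 ≤ b ^ 2) (hb : 0 ≤ b) : a ≤ b :=
  abs_le_of_sq_le_sq' h hb |>.2

/-- The basic inequality, for `B = g (h0 - S)`. -/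
theorem t1_core (hA : Ang C S p q) :
    (1 + 4 * (1 - C) - 4 * h0 * S) * g (h0 - S) ≤
      1 / 2 - 22 / 3 * (1 - C) + 8 * h0 * S * (1 - C) - 6 * (1 - C) ^ 2 := by
  have h1 := h0_sq
  have h2 := h0_gt
  have h3 := h0_lt
  have hS0 := hA.S0
  have hS1 := hA.S1
  have hK := hA.K_le
  have hK2 := hA.K_ge
  obtain ⟨K, hKd⟩ : ∃ K, K = 1 - C := ⟨_, rfl⟩
  have hKe : K * (2 - K) = S ^ 2 := by rw [hKd]; linear_combination hA.K_eq
  rw [← hKd] at hK hK2 ⊢
  have hx : (h0 - S) ^ 2 ≤ 1 := by linear_combination (8661 / 8660) * h1 + (500 / 433) * (mul_nonneg (sub_nonneg.mpr (sq_nonneg (h0 - S))) (sub_nonneg.mpr (le_of_lt h2))) +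
    (125 / 154) * (mul_nonneg (sub_nonneg.mpr (sq_nonneg (h0 - S))) (sub_nonneg.mpr hS0)) +
    (500 / 433) * (mul_nonneg (sub_nonneg.mpr (sq_nonneg (h0))) (sub_nonneg.mpr (le_of_lt h3))) +
    (99875 / 66682) * (mul_nonneg (sub_nonneg.mpr (sq_nonneg (h0))) (sub_nonneg.mpr hS0)) +
    (15625 / 33341) * (mul_nonneg (sub_nonneg.mpr (sq_nonneg (S))) (sub_nonneg.mpr (le_of_lt h2))) +
    (125 / 154) * (mul_nonneg (sub_nonneg.mpr (sq_nonneg (S))) (sub_nonneg.mpr hS1))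
  have hB := g_sq hx
  have hB0 := g_nonneg (h0 - S)
  obtain ⟨B, hBd⟩ : ∃ B, B = g (h0 - S) := ⟨_, rfl⟩
  rw [← hBd] at hB hB0 ⊢
  have hB' : B ^ 2 = 1 / 4 + 2 * h0 * S - S ^ 2 := by linear_combination -h1 + hB
  rcases le_total 0 (1 + 4 * K - 4 * h0 * S) with h | h
  · -- `B ≤ (B ^ 2 + b ^ 2) / (2 b)` with `b = 1 / 2 + 3 / 2 S`
    have e1 : B * (1 + 3 * S) ≤ 1 / 2 + (2 * h0 + 3 / 2) * S + 5 / 4 * S ^ 2 := by
      linear_combination (sq_nonneg (B - (1 / 2 + 3 / 2 * S))) - h1 + hB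
    have e2 : (1 + 4 * K - 4 * h0 * S) * (1 / 2 + (2 * h0 + 3 / 2) * S + 5 / 4 * S ^ 2) ≤
        (1 / 2 - 22 / 3 * K + 8 * h0 * S * K - 6 * K ^ 2) * (1 + 3 * S) := by
      have f0 : (1 / 2 - 22 / 3 * K + 8 * h0 * S * K - 6 * K ^ 2) * (1 + 3 * S) -
          (1 + 4 * K - 4 * h0 * S) * (1 / 2 + (2 * h0 + 3 / 2) * S + 5 / 4 * S ^ 2) =
          (19 / 4 + 6 * h0) * S ^ 2 - 28 / 3 * K - 28 * K * S + (24 * h0 - 5) * (S ^ 2 * K) +
            5 * h0 * S ^ 3 - 6 * K ^ 2 - 18 * K ^ 2 * S := by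
        linear_combination (8 * S ^ 2) * h1
      have g2 : 0 ≤ S ^ 2 := sq_nonneg S
      have g3 : 0 ≤ S ^ 3 := by positivity
      have g4 : 0 ≤ S ^ 4 := by positivity
      have hK0 : 0 ≤ K := by linear_combination (27 / 2) * hK2 + (25 / 2) * hK
      have f1 : K * S ≤ 27 / 50 * S ^ 3 := by linear_combination (mul_le_mul_of_nonneg_right hK hS0)
      have f2 : S ^ 4 / 2 ≤ S ^ 2 * K := by linear_combination (mul_le_mul_of_nonneg_left hK2 g2)
      have f3 : K ^ 2 ≤ (27 / 50 * S ^ 2) ^ 2 := pow_le_pow_left₀ hK0 hK 2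
      have f4 : K ^ 2 * S ≤ (27 / 50 * S ^ 2) ^ 2 * S := mul_le_mul_of_nonneg_right f3 hS0
      have f5 : 0 ≤ S ^ 2 * K := mul_nonneg g2 hK0
      have f6 : (24 * h0 - 5) * (S ^ 2 * K) ≥ 157 / 10 * (S ^ 4 / 2) := by linear_combination (35 / 243) * (sq_nonneg (27 / 50 * S ^ 2)) + (1973 / 125) * f2 +
        (10000 / 243) * (mul_nonneg (sub_nonneg.mpr (sq_nonneg (27 / 50 * S ^ 2))) (sub_nonneg.mpr (le_of_lt h2))) +
        24 * (mul_nonneg (sub_nonneg.mpr (le_of_lt h2)) (sub_nonneg.mpr f2))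
      have f7 : 5 * h0 * S ^ 3 ≥ 433 / 100 * S ^ 3 := by linear_combination 5 * (mul_nonneg (sub_nonneg.mpr (le_of_lt h2)) (sub_nonneg.mpr g3))
      have f8 : (19 / 4 + 6 * h0) * S ^ 2 ≥ 9946 / 1000 * S ^ 2 := by linear_combination 6 * (mul_nonneg (sub_nonneg.mpr (sq_nonneg (S))) (sub_nonneg.mpr (le_of_lt h2)))
      have f9 : 0 ≤ S ^ 2 * (9946 / 1000 - 28 / 3 * (27 / 50) - 28 * (27 / 50) * S +
          157 / 20 * S ^ 2 + 433 / 100 * S - 6 * (27 / 50) ^ 2 * S ^ 2 -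
          18 * (27 / 50) ^ 2 * S ^ 3) := by
        apply mul_nonneg g2
        linear_combination (3657 / 250) * (mul_nonneg hS0 (sub_nonneg.2 hS1)) + (6561 / 1250) * (mul_nonneg g2 (sub_nonneg.2 hS1)) +
          (2263 / 125) * (sq_nonneg (S - 1 / 2))
      linear_combination (28 / 3) * hK - f0 + 28 * f1 + 6 * f3 + 18 * f4 + f6 + f7 + f8 + f9
    have e3 := mul_le_mul_of_nonneg_left e1 h
    have e4 : ((1 + 4 * K - 4 * h0 * S) * B) * (1 + 3 * S) ≤
        (1 / 2 - 22 / 3 * K + 8 * h0 * S * K - 6 * K ^ 2) * (1 + 3 * S) := by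
      calc _ = (1 + 4 * K - 4 * h0 * S) * (B * (1 + 3 * S)) := by ring
        _ ≤ _ := e3.trans e2
    exact le_of_mul_le_mul_right e4 (by linear_combination 3 * hS0)
  · have e0 : 366 / 1000 ≤ S := by
      by_contra hc
      push Not at hc
      exact absurd h (not_le.mpr (by linear_combination (366 / 433) * h1 + 4 * hK2 + (433 / 250) * hc + (366 / 433) * (mul_pos (sub_pos.mpr h2) (sub_pos.mpr h2)) + 4 * (mul_pos (sub_pos.mpr h2) (sub_pos.mpr hc)) + 2 * (mul_nonneg (sub_nonneg.mpr hS1) (sub_nonneg.mpr (le_of_lt hc)))))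
    have e1 : 86 / 100 ≤ B := by
      have : (86 / 100) ^ 2 ≤ B ^ 2 := by
        rw [hB']
        linear_combination 2 * hK2 + (1 / 2) * h
      exact le_of_sq_le_sq' this hB0
    have e2 : (1 + 4 * K - 4 * h0 * S) * B ≤ (1 + 4 * K - 4 * h0 * S) * (86 / 100) :=
      mul_le_mul_of_nonpos_left e1 h
    refine e2.trans ?_
    have e3 : K ≤ 695 / 10000 + 4825 / 10000 * (S - 366 / 1000) := by
      by_contra hc
      push Not at hc
      have c1 : K ≤ 27 / 200 := by linear_combination (27 / 100) * hS1 + hK + (27 / 50) * (mul_nonneg (sub_nonneg.mpr hS0) (sub_nonneg.mpr hS1))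
      have c2 := mul_pos (sub_pos.2 hc) (show 0 < 2 - K -
        (695 / 10000 + 4825 / 10000 * (S - 366 / 1000)) by linear_combination (193 / 400) * hS1 + c1)
      exact absurd c2 (not_lt.mpr (by linear_combination (197249 / 160000) * (mul_nonneg (sub_nonneg.2 e0) (sub_nonneg.2 hS1)) + hKe + (58917 / 80000000) * e0))
    have hK0 : 0 ≤ K := by linear_combination (27 / 2) * hK2 + (25 / 2) * hK
    have c3 : 8 * h0 * S * K ≥ 6928 / 1000 * (S * K) := by linear_combination 8 * (mul_nonneg (sub_nonneg.mpr (mul_nonneg hS0 hK0)) (sub_nonneg.mpr (le_of_lt h2)))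
    have c4 : 4 * h0 * S * (86 / 100) ≥ 3464 / 1000 * (86 / 100) * S := by linear_combination (86 / 25) * (mul_nonneg (sub_nonneg.mpr (le_of_lt h2)) (sub_nonneg.mpr hS0))
    have c5 : 0 ≤ (K - S ^ 2 / 2) * S := mul_nonneg (by linear_combination hK2) hS0
    linear_combination (721728717741224425497 / 159961200457572214000) * (mul_nonneg (sub_nonneg.2 e0) (sub_nonneg.2 hS1)) +
      (2334071508512992000 / 239941800686358321) * (mul_nonneg (sub_nonneg.2 e3) hK0) + (74243127476387212042921 / 79980600228786107000000) * hS1 +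
      (1167502805595084050 / 239941800686358321) * hKe + c3 + c4 + (67015911537196475986 / 29992725085794790125) * c5 +
      (43317849920000000000 / 719825402059074963) * (mul_nonneg (sub_nonneg.mpr (sq_nonneg (K))) (sub_nonneg.mpr (sq_nonneg (K)))) +
      (43317849920000000000 / 719825402059074963) * (mul_nonneg (sub_nonneg.mpr (sq_nonneg (K))) (sub_nonneg.mpr (mul_nonneg (sub_nonneg.2 e3) hK0))) +
      (20900862586400000000 / 719825402059074963) * (mul_nonneg (sub_nonneg.mpr (sq_nonneg (K))) (sub_nonneg.mpr (mul_nonneg (sub_nonneg.2 e3) hS0))) +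
      (4639125137182400000 / 719825402059074963) * (mul_nonneg (sub_nonneg.mpr (sq_nonneg (K))) (sub_nonneg.mpr hK2)) +
      (2238377878690508000 / 719825402059074963) * (mul_nonneg (sub_nonneg.mpr (sq_nonneg (K))) (sub_nonneg.mpr e0)) +
      (2783925540434341369 / 1439650804118149926) * (mul_nonneg (sub_nonneg.mpr (sq_nonneg (S))) (sub_nonneg.mpr (mul_nonneg (sub_nonneg.2 e0) (sub_nonneg.2 hS1)))) +
      (7765103629346800000 / 719825402059074963) * (mul_nonneg (sub_nonneg.mpr (sq_nonneg (S))) (sub_nonneg.mpr (mul_nonneg (sub_nonneg.2 e3) hK0))) +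
      (3746662501159831000 / 719825402059074963) * (mul_nonneg (sub_nonneg.mpr (sq_nonneg (S))) (sub_nonneg.mpr (mul_nonneg (sub_nonneg.2 e3) hS0))) +
      (831603773184895546 / 719825402059074963) * (mul_nonneg (sub_nonneg.mpr (sq_nonneg (S))) (sub_nonneg.mpr hK2))

end Pool.Agent.Strip051.N2
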