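import Pool.Agent.Strip051.N2.MidPsi

/-! # Monotonicity of the worst case function -/

namespace Pool.Agent.Strip051.N2

open Pool.Agent.StripNear Pool.Agent.StripSquare Pool.Agent.Strip051

variable {C S p q : ℝ}

theorem hasDerivAt_g {x : ℝ} (hx : x ^ 2 < 1) : HasDerivAt g (-(x / g x)) x := by
  have h1 : HasDerivAt (fun y : ℝ => 1 - y ^ 2) (-(2 * x)) x := by
    have := (hasDerivAt_pow 2 x).const_sub 1
    simpa using this
  have h2 := h1.sqrt (by linarith)
  have h3 : -(2 * x) / (2 * Real.sqrt (1 - x ^ 2)) = -(x / g x) := by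
    unfold g
    have : Real.sqrt (1 - x ^ 2) ≠ 0 := (g_pos hx).ne'
    field_simp
  rw [h3] at h2
  exact h2

/-- The increment of `tan` along the circle. -/
theorem slope_aux {w y u e1 e2 : ℝ} (hw : 0 ≤ w) (hwy : w ≤ y) (hyu : y ≤ u) (hu : u ^ 2 < 1)
    (he1 : y - w = e1) (he2 : u - y = e2) (h : e2 * (1 - w ^ 2) ≤ 3 * e1 * (1 - u ^ 2)) :
    3 * (w / g w) + u / g u ≤ 4 * (y / g y) := by
  have hy : 0 ≤ y := hw.trans hwy
  have hy2 : y ^ 2 < 1 := by linear_combination hu + 2 * (mul_nonneg (sub_nonneg.mpr hw) (sub_nonneg.mpr hyu)) +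
    2 * (mul_nonneg (sub_nonneg.mpr hwy) (sub_nonneg.mpr hyu)) + (mul_nonneg (sub_nonneg.mpr hyu) (sub_nonneg.mpr hyu))
  have hw2 : w ^ 2 < 1 := by linear_combination hy2 + 2 * (mul_nonneg (sub_nonneg.mpr hw) (sub_nonneg.mpr hwy)) +
    (mul_nonneg (sub_nonneg.mpr hwy) (sub_nonneg.mpr hwy))
  have W := g_pos hw2
  have Y := g_pos hy2
  have U := g_pos hu
  have sW := g_sq hw2.le
  have sY := g_sq hy2.le
  have sU := g_sq hu.le
  have hYW : g y ≤ g w := g_anti hw hwy
  have hUY : g u ≤ g y := g_anti hy hyu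
  -- `u / U - y / Y = (u ^ 2 - y ^ 2) / ((u Y + y U) U Y)`
  have k1 : (u / g u - y / g y) * (g u ^ 2) ≤ (u - y) / g y := by
    have e : (u / g u - y / g y) * (g u ^ 2) = g u * (u * g y - y * g u) / g y := by
      field_simp
    rw [e]
    apply div_le_div_of_nonneg_right _ Y.le
    -- `(u Y - y U) (u Y + y U) = u ^ 2 - y ^ 2`
    have e1 : (u * g y - y * g u) * (u * g y + y * g u) = u ^ 2 - y ^ 2 := by
      nlinarith
    rcases eq_or_lt_of_le (hy.trans hyu) with h0 | h0
    · have z1 : y = 0 := by exact le_antisymm (by linear_combination hyu - h0) (by linear_combination hw + hwy)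
      have z2 : u = 0 := by linear_combination -h0
      rw [z1, z2]
      simp
    · have e2 : g u * (u + y) ≤ u * g y + y * g u := by linear_combination (mul_nonneg (sub_nonneg.mpr hw) (sub_nonneg.mpr hUY)) + (mul_nonneg (sub_nonneg.mpr hwy) (sub_nonneg.mpr hUY)) +
      (mul_nonneg (sub_nonneg.mpr hyu) (sub_nonneg.mpr hUY))
      have e3 : 0 < u * g y + y * g u := by positivity
      have e4 : 0 ≤ u * g y - y * g u := by linear_combination (mul_nonneg (sub_nonneg.mpr hw) (sub_nonneg.mpr hUY)) + (mul_nonneg (sub_nonneg.mpr hwy) (sub_nonneg.mpr hUY)) +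
        (mul_nonneg (sub_nonneg.mpr hyu) (sub_nonneg.mpr (le_of_lt Y)))
      have e5 : g u * (u * g y - y * g u) * (u + y) ≤ (u - y) * (u + y) := by
        calc g u * (u * g y - y * g u) * (u + y) = (g u * (u + y)) * (u * g y - y * g u) := by ring
          _ ≤ (u * g y + y * g u) * (u * g y - y * g u) := mul_le_mul_of_nonneg_right e2 e4
          _ = (u - y) * (u + y) := by linear_combination e1
      exact le_of_mul_le_mul_right e5 (by linear_combination hw + hwy + h0)
  have k2 : (y - w) / g y ≤ (y / g y - w / g w) * (g w ^ 2) := by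
    have e : (y / g y - w / g w) * (g w ^ 2) = g w * (y * g w - w * g y) / g y := by
      field_simp
    rw [e]
    apply div_le_div_of_nonneg_right _ Y.le
    have e1 : (y * g w - w * g y) * (y * g w + w * g y) = y ^ 2 - w ^ 2 := by
      nlinarith
    rcases eq_or_lt_of_le hy with h0 | h0
    · have z1 : w = 0 := by exact le_antisymm (by linear_combination hwy - h0) (by linear_combination hw)
      have z2 : y = 0 := by linear_combination -h0
      rw [z1, z2]
      simp
    · have e2 : y * g w + w * g y ≤ g w * (y + w) := by linear_combination (mul_nonneg (sub_nonneg.mpr hw) (sub_nonneg.mpr hYW))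
      have e3 : 0 < y * g w + w * g y := by positivity
      have e4 : 0 ≤ y * g w - w * g y := by linear_combination e2 + (mul_nonneg (sub_nonneg.mpr hwy) (sub_nonneg.mpr (le_of_lt W)))
      have e5 : (y - w) * (y + w) ≤ g w * (y * g w - w * g y) * (y + w) := by
        calc (y - w) * (y + w) = (y * g w + w * g y) * (y * g w - w * g y) := by linear_combination -e1
          _ ≤ (g w * (y + w)) * (y * g w - w * g y) := mul_le_mul_of_nonneg_right e2 e4
          _ = g w * (y * g w - w * g y) * (y + w) := by ring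
      exact le_of_mul_le_mul_right e5 (by linear_combination hw + h0)
  rw [he2] at k1
  rw [he1] at k2
  -- multiply by `g w ^ 2 * g u ^ 2`
  have k3 : (u / g u - y / g y) * (g u ^ 2) * (g w ^ 2) ≤
      3 * ((y / g y - w / g w) * (g w ^ 2)) * (g u ^ 2) := by
    calc (u / g u - y / g y) * (g u ^ 2) * (g w ^ 2) ≤ e2 / g y * (g w ^ 2) :=
          mul_le_mul_of_nonneg_right k1 (sq_nonneg _)
      _ = e2 * (g w ^ 2) / g y := by ring
      _ ≤ 3 * e1 * (g u ^ 2) / g y := by
          apply div_le_div_of_nonneg_right _ Y.le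
          rw [sW, sU]
          exact h
      _ = 3 * (e1 / g y) * (g u ^ 2) := by ring
      _ ≤ _ := by
          apply mul_le_mul_of_nonneg_right _ (sq_nonneg _)
          linear_combination 3 * k2
  have k4 : 0 < g u ^ 2 * g w ^ 2 := by positivity
  have k5 : (u / g u - y / g y) * (g u ^ 2 * g w ^ 2) ≤
      (3 * (y / g y - w / g w)) * (g u ^ 2 * g w ^ 2) := by
    calc _ = (u / g u - y / g y) * (g u ^ 2) * (g w ^ 2) := by ring
      _ ≤ _ := k3
      _ = _ := by ring
  have k6 := le_of_mul_le_mul_right k5 k4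
  linear_combination k6

/-- The worst case function. -/
noncomputable def psi (C p q δ : ℝ) : ℝ :=
  2 * g p - 3 * g (p - δ) - g (q - δ) + 4 * g (h0 - δ) + C - 2

theorem psi_mono (hA : Ang C S p q) {a b : ℝ} (h1 : q - a ≤ h0) (hab : a ≤ b) (h2 : b ≤ p) :
    psi C p q a ≤ psi C p q b := by
  have hh := h0_sq
  have hh1 := h0_gt
  have hh2 := h0_lt
  have hS0 := hA.S0
  have hS1 := hA.S1
  have hK := hA.K_le
  have hK2 := hA.K_ge
  have hpq := hA.q_sub
  have hpp := hA.hp
  have hqq := hA.hq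
  have hp1 := hA.p_ge
  have hph := hA.p_le_h
  have hhq := hA.h_le_q
  have hd : ∀ x ∈ Set.Icc a b, HasDerivAt (psi C p q)
      (-3 * ((p - x) / g (p - x)) - (q - x) / g (q - x) + 4 * ((h0 - x) / g (h0 - x))) x := by
    intro x hx
    obtain ⟨hx1, hx2⟩ := hx
    have r1 : (p - x) ^ 2 < 1 := by linear_combination (8661 / 10000) * h1 + (8661 / 17320) * hh + (8661 / 10000) * hS0 - (8661 / 10000) * hpq +
      (mul_nonneg (sub_nonneg.mpr h1) (sub_nonneg.mpr hab)) + (mul_nonneg (sub_nonneg.mpr h1) (sub_nonneg.mpr h2)) +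
      (mul_nonneg (sub_nonneg.mpr hab) (sub_nonneg.mpr (le_of_lt hh2))) + (mul_nonneg (sub_nonneg.mpr hab) (sub_nonneg.mpr hS0)) +
      (mul_nonneg (sub_nonneg.mpr hab) (sub_nonneg.mpr (ge_of_eq hpq))) + (mul_nonneg (sub_nonneg.mpr hab) (sub_nonneg.mpr hx1)) +
      (mul_nonneg (sub_nonneg.mpr h2) (sub_nonneg.mpr (le_of_lt hh2))) + (mul_nonneg (sub_nonneg.mpr h2) (sub_nonneg.mpr hS0)) +
      (mul_nonneg (sub_nonneg.mpr h2) (sub_nonneg.mpr (ge_of_eq hpq))) + 2 * (mul_nonneg (sub_nonneg.mpr h2) (sub_nonneg.mpr hx1)) +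
      (8661 / 17320) * (mul_pos (sub_pos.mpr hh1) (sub_pos.mpr hh1)) + (mul_nonneg (sub_nonneg.mpr hx1) (sub_nonneg.mpr hx2))
    have r2 : (q - x) ^ 2 < 1 := by linear_combination (433 / 500) * h1 + hh + (mul_nonneg (sub_nonneg.mpr h1) (sub_nonneg.mpr hab)) +
      (mul_nonneg (sub_nonneg.mpr h1) (sub_nonneg.mpr h2)) + (mul_nonneg (sub_nonneg.mpr h1) (sub_nonneg.mpr (le_of_lt hh1))) +
      (mul_nonneg (sub_nonneg.mpr h1) (sub_nonneg.mpr hS0)) + (mul_nonneg (sub_nonneg.mpr h1) (sub_nonneg.mpr (ge_of_eq hpq))) +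
      (mul_nonneg (sub_nonneg.mpr hab) (sub_nonneg.mpr hx1)) + 2 * (mul_nonneg (sub_nonneg.mpr h2) (sub_nonneg.mpr hx1)) +
      2 * (mul_nonneg (sub_nonneg.mpr hS0) (sub_nonneg.mpr hx1)) + 2 * (mul_nonneg (sub_nonneg.mpr (ge_of_eq hpq)) (sub_nonneg.mpr hx1)) +
      (mul_nonneg (sub_nonneg.mpr hx1) (sub_nonneg.mpr hx2))
    have r3 : (h0 - x) ^ 2 < 1 := by linear_combination -(1 / 2) * hpq + (mul_nonneg (sub_nonneg.mpr h1) (sub_nonneg.mpr (le_of_eq hpq))) +
      (mul_nonneg (sub_nonneg.mpr hab) (sub_nonneg.mpr (le_of_eq hpq))) + (mul_nonneg (sub_nonneg.mpr h2) (sub_nonneg.mpr (le_of_eq hpq))) +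
      2 * (mul_nonneg (sub_nonneg.mpr h2) (sub_nonneg.mpr hhq)) + 10000 * (mul_pos (sub_pos.mpr hh1) (sub_pos.mpr r2)) +
      10000 * (mul_pos (sub_pos.mpr hh2) (sub_pos.mpr r2)) + (mul_nonneg (sub_nonneg.mpr hS0) (sub_nonneg.mpr hhq)) +
      (mul_nonneg (sub_nonneg.mpr (ge_of_eq hpq)) (sub_nonneg.mpr hp1)) + (mul_nonneg (sub_nonneg.mpr hph) (sub_nonneg.mpr hhq)) +
      2 * (mul_nonneg (sub_nonneg.mpr hhq) (sub_nonneg.mpr hx2))
    have d1 : HasDerivAt (fun x => g (p - x)) ((p - x) / g (p - x)) x := by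
      have := (hasDerivAt_g r1).comp x ((hasDerivAt_id x).const_sub p)
      simpa [Function.comp_def] using this
    have d2 : HasDerivAt (fun x => g (q - x)) ((q - x) / g (q - x)) x := by
      have := (hasDerivAt_g r2).comp x ((hasDerivAt_id x).const_sub q)
      simpa [Function.comp_def] using this
    have d3 : HasDerivAt (fun x => g (h0 - x)) ((h0 - x) / g (h0 - x)) x := by
      have := (hasDerivAt_g r3).comp x ((hasDerivAt_id x).const_sub h0)
      simpa [Function.comp_def] using this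
    have d4 := (((d1.const_mul (-3)).sub d2).add (d3.const_mul 4)).add_const (2 * g p + C - 2)
    refine d4.congr_of_eventuallyEq (Filter.Eventually.of_forall fun y => ?_)
    simp only [psi, Pi.add_apply, Pi.sub_apply]
    ring
  have hm : MonotoneOn (psi C p q) (Set.Icc a b) := by
    apply monotoneOn_of_deriv_nonneg (convex_Icc a b)
    · intro x hx
      exact (hd x hx).continuousAt.continuousWithinAt
    · intro x hx
      exact (hd x (interior_subset hx)).differentiableAt.differentiableWithinAt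
    · intro x hx
      have hx' := interior_subset hx
      rw [(hd x hx').deriv]
      obtain ⟨hx1, hx2⟩ := hx'
      have key := slope_aux (w := p - x) (y := h0 - x) (u := q - x) (e1 := h0 - p) (e2 := q - h0)
        (by linear_combination h2 + hx2) (by linear_combination hph) (by linear_combination hhq) (by linear_combination (433 / 500) * h1 + hh + (433 / 500) * hx1 + (mul_nonneg (sub_nonneg.mpr h1) (sub_nonneg.mpr h2)) +
          (mul_nonneg (sub_nonneg.mpr h1) (sub_nonneg.mpr (le_of_lt hh1))) + (mul_nonneg (sub_nonneg.mpr h1) (sub_nonneg.mpr hS0)) +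
          (mul_nonneg (sub_nonneg.mpr h1) (sub_nonneg.mpr (ge_of_eq hpq))) + (mul_nonneg (sub_nonneg.mpr h1) (sub_nonneg.mpr hx2)) +
          (mul_nonneg (sub_nonneg.mpr h2) (sub_nonneg.mpr hx1)) + (mul_nonneg (sub_nonneg.mpr (le_of_lt hh1)) (sub_nonneg.mpr hx1)) +
          (mul_nonneg (sub_nonneg.mpr hS0) (sub_nonneg.mpr hx1)) + (mul_nonneg (sub_nonneg.mpr (ge_of_eq hpq)) (sub_nonneg.mpr hx1)) +
          (mul_nonneg (sub_nonneg.mpr hx1) (sub_nonneg.mpr hx2))) (by ring) (by ring) ?_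
      · linear_combination key
      · obtain ⟨K, hKd⟩ : ∃ K, K = 1 - C := ⟨_, rfl⟩
        have e1 : h0 - p = S / 2 + h0 * K := by rw [hpp, hKd]; ring
        have e2 : q - h0 = S / 2 - h0 * K := by rw [hqq, hKd]; ring
        obtain ⟨u, hu⟩ : ∃ u, u = q - x := ⟨_, rfl⟩
        have hw : p - x = u - S := by rw [hu]; linear_combination -hpq
        rw [← hKd] at hK hK2
        rw [e1, e2, hw, ← hu]
        have u1 : u ≤ h0 := by rw [hu]; linear_combination h1 + hx1
        have u0 : S ≤ u := by linear_combination h2 - hpq + hx2 - hu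
        have f1 : 1 / 4 ≤ 1 - u ^ 2 := by linear_combination hh + (433 / 500) * hx1 + (433 / 250) * hu + (mul_nonneg (sub_nonneg.mpr h1) (sub_nonneg.mpr h1)) +
          (mul_nonneg (sub_nonneg.mpr h1) (sub_nonneg.mpr hab)) + 2 * (mul_nonneg (sub_nonneg.mpr h1) (sub_nonneg.mpr h2)) +
          2 * (mul_nonneg (sub_nonneg.mpr h1) (sub_nonneg.mpr hS0)) + 2 * (mul_nonneg (sub_nonneg.mpr h1) (sub_nonneg.mpr (ge_of_eq hpq))) +
          (mul_nonneg (sub_nonneg.mpr h1) (sub_nonneg.mpr hx2)) + 2 * (mul_nonneg (sub_nonneg.mpr h1) (sub_nonneg.mpr (ge_of_eq hu))) +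
          (mul_nonneg (sub_nonneg.mpr h2) (sub_nonneg.mpr hx1)) + (mul_nonneg (sub_nonneg.mpr (le_of_lt hh1)) (sub_nonneg.mpr hx1)) +
          2 * (mul_nonneg (sub_nonneg.mpr (le_of_lt hh1)) (sub_nonneg.mpr (le_of_eq hu))) + (mul_nonneg (sub_nonneg.mpr hS0) (sub_nonneg.mpr hx1)) +
          (mul_nonneg (sub_nonneg.mpr (ge_of_eq hpq)) (sub_nonneg.mpr hx1)) + (mul_nonneg (sub_nonneg.mpr hx1) (sub_nonneg.mpr hx2)) +
          2 * (mul_nonneg (sub_nonneg.mpr hx1) (sub_nonneg.mpr (ge_of_eq hu))) + (mul_nonneg (sub_nonneg.mpr (ge_of_eq hu)) (sub_nonneg.mpr (le_of_eq hu)))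
        have f2 : (S + 4 * h0 * K) * (1 / 4) ≤ (S + 4 * h0 * K) * (1 - u ^ 2) := by
          apply mul_le_mul_of_nonneg_left f1
          have : 0 ≤ K := by linear_combination (27 / 2) * hK2 + (25 / 2) * hK
          positivity
        have f3 : 0 ≤ S / 2 - h0 * K := by linear_combination hpq + hhq - e1
        have f4 : (S / 2 - h0 * K) * (2 * u * S - S ^ 2) ≤
            (S / 2 - h0 * (S ^ 2 / 2)) * (2 * h0 * S - S ^ 2) := by
          apply mul_le_mul _ _ _ _
          · linear_combination (433 / 500) * hK2 + (mul_nonneg (sub_nonneg.mpr (le_of_lt hh1)) (sub_nonneg.mpr hK2))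
          · linear_combination 2 * (mul_nonneg (sub_nonneg.mpr h1) (sub_nonneg.mpr hS0)) + 2 * (mul_nonneg (sub_nonneg.mpr hS0) (sub_nonneg.mpr hx1)) +
            2 * (mul_nonneg (sub_nonneg.mpr hS0) (sub_nonneg.mpr (le_of_eq hu)))
          · linear_combination (sq_nonneg (S)) + 2 * (mul_nonneg (sub_nonneg.mpr h2) (sub_nonneg.mpr hS0)) +
            2 * (mul_nonneg (sub_nonneg.mpr hS0) (sub_nonneg.mpr (ge_of_eq hpq))) + 2 * (mul_nonneg (sub_nonneg.mpr hS0) (sub_nonneg.mpr hx2)) +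
            2 * (mul_nonneg (sub_nonneg.mpr hS0) (sub_nonneg.mpr (ge_of_eq hu)))
          · linear_combination hpq + hhq + (433 / 500) * hK2 - e1 + (mul_nonneg (sub_nonneg.mpr (le_of_lt hh1)) (sub_nonneg.mpr hK2))
        have f5 : (S / 2 - h0 * (S ^ 2 / 2)) * (2 * h0 * S - S ^ 2) ≤
            (S + 4 * h0 * K) * (1 / 4) := by
          have g1 : h0 * (S ^ 2 / 2) ≤ h0 * K := mul_le_mul_of_nonneg_left hK2 (by linear_combination hh1)
          have g2 : (S / 2 - h0 * (S ^ 2 / 2)) * (2 * h0 * S - S ^ 2) =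
            S * (h0 * S - 5 / 4 * S ^ 2 + h0 / 2 * S ^ 3) := by
            linear_combination (-S ^ 3) * hh
          have g3 : 0 ≤ S * (1 / 4 + h0 * S / 2 - (h0 * S - 5 / 4 * S ^ 2 + h0 / 2 * S ^ 3)) := by
            apply mul_nonneg hS0
            linear_combination (41339 / 40000) * (sq_nonneg (S)) + (433 / 1000) * (mul_nonneg (mul_nonneg hS0 hS0) (sub_nonneg.2 hS1)) +
              (125 / 866) * hh + (433 / 1000) * hS1 + (1 / 4) * (mul_nonneg (sub_nonneg.mpr (sq_nonneg (S))) (sub_nonneg.mpr (le_of_lt hh2))) +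
              (1 / 2) * (mul_nonneg (sub_nonneg.mpr (mul_nonneg (mul_nonneg hS0 hS0) (sub_nonneg.2 hS1))) (sub_nonneg.mpr (le_of_lt hh1))) +
              (125 / 866) * (mul_pos (sub_pos.mpr hh1) (sub_pos.mpr hh1)) + (1 / 2) * (mul_nonneg (sub_nonneg.mpr (le_of_lt hh1)) (sub_nonneg.mpr hS1))
          linear_combination g1 + g2 + g3
        linear_combination f2 + f4 + f5
  exact hm ⟨le_rfl, hab⟩ ⟨hab, le_rfl⟩ hab

end Pool.Agent.Strip051.N2
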