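import Pool.Agent.Strip051.N2.MidPsi2

/-! # The worst case function at the edge `δ = q - h0` -/

namespace Pool.Agent.Strip051.N2

open Pool.Agent.StripNear Pool.Agent.StripSquare Pool.Agent.Strip051

variable {C S p q : ℝ}

theorem psi_edge_eq (hA : Ang C S p q) : psi C p q (q - h0) =
    4 * g (2 * h0 - q) - (3 * g (h0 - S) + (1 / 2 + 2 * (1 - C) - 2 * h0 * S)) := by
  unfold psi
  have h1 : p - (q - h0) = h0 - S := by linear_combination -hA.q_sub
  rw [h1, hA.gp, show q - (q - h0) = h0 by ring, show h0 - (q - h0) = 2 * h0 - q by ring, g_h0]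
  ring

/-- The difference of squares behind the edge inequality. -/
theorem edge_sq (hA : Ang C S p q) :
    (4 * g (2 * h0 - q)) ^ 2 - (3 * g (h0 - S) + (1 / 2 + 2 * (1 - C) - 2 * h0 * S)) ^ 2 =
      3 * ((1 / 2 - 22 / 3 * (1 - C) + 8 * h0 * S * (1 - C) - 6 * (1 - C) ^ 2) -
        (1 + 4 * (1 - C) - 4 * h0 * S) * g (h0 - S)) := by
  have h1 := h0_sq
  have h2 := h0_gt
  have h3 := h0_lt
  have hq1 := hA.h_le_q
  have hq2 := hA.q_le
  have hS0 := hA.S0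
  have hS1 := hA.S1
  have hsq := hA.sq
  have a1 : (2 * h0 - q) ^ 2 ≤ 1 := by linear_combination h1 + (799 / 500) * hq1 + 3 * (mul_nonneg (sub_nonneg.mpr (le_of_lt h2)) (sub_nonneg.mpr hq1)) +
    (mul_nonneg (sub_nonneg.mpr hq1) (sub_nonneg.mpr hq2))
  have a2 : (h0 - S) ^ 2 ≤ 1 := by linear_combination (799 / 433) * (sq_nonneg (S)) + (8661 / 8660) * h1 + (500 / 433) * (mul_nonneg (sub_nonneg.mpr (sq_nonneg (h0 - S))) (sub_nonneg.mpr (le_of_lt h2))) +
    (1000 / 433) * (mul_nonneg (sub_nonneg.mpr (sq_nonneg (h0 - S))) (sub_nonneg.mpr hS0)) +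
    (500 / 433) * (mul_nonneg (sub_nonneg.mpr (sq_nonneg (h0))) (sub_nonneg.mpr (le_of_lt h3))) +
    (1500 / 433) * (mul_nonneg (sub_nonneg.mpr (sq_nonneg (S))) (sub_nonneg.mpr (le_of_lt h2))) +
    (1000 / 433) * (mul_nonneg (sub_nonneg.mpr (sq_nonneg (S))) (sub_nonneg.mpr hS1))
  have A := g_sq a1
  have B := g_sq a2
  rw [mul_pow, A]
  have hqq := hA.hq
  have e : ∀ b : ℝ, b ^ 2 = 1 - (h0 - S) ^ 2 →
      4 ^ 2 * (1 - (2 * h0 - q) ^ 2) - (3 * b + (1 / 2 + 2 * (1 - C) - 2 * h0 * S)) ^ 2 =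
      3 * ((1 / 2 - 22 / 3 * (1 - C) + 8 * h0 * S * (1 - C) - 6 * (1 - C) ^ 2) -
        (1 + 4 * (1 - C) - 4 * h0 * S) * b) := by
    intro b hb
    rw [hqq]
    linear_combination (-9) * hb + (-16 * (2 - C) ^ 2 + 9 - 4 * S ^ 2) * h1 + 2 * hsq
  exact e _ B

theorem psi_edge (hA : Ang C S p q) : 0 ≤ psi C p q (q - h0) := by
  rw [psi_edge_eq hA]
  have h1 := edge_sq hA
  have h2 := t1_core hA
  have h3 : (3 * g (h0 - S) + (1 / 2 + 2 * (1 - C) - 2 * h0 * S)) ^ 2 ≤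
      (4 * g (2 * h0 - q)) ^ 2 := by linear_combination -h1 + 3 * h2
  have h4 : 0 ≤ 4 * g (2 * h0 - q) := by
    have := g_nonneg (2 * h0 - q)
    linear_combination 4 * this
  have := le_of_sq_le_sq' h3 h4
  linear_combination this

/-- The inequality for all `δ`. -/
theorem psi_nonneg (hA : Ang C S p q) {δ : ℝ} (h1 : q - δ ≤ h0) (h2 : δ ≤ p) :
    0 ≤ psi C p q δ :=
  (psi_edge hA).trans (psi_mono hA (by linear_combination) (by linear_combination h1) h2)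

/-- The chord bound for `K = 1 - cos θ` when `3 / 8 ≤ sin θ ≤ 1 / 2`. -/
theorem K_chord {K S : ℝ} (hKe : K * (2 - K) = S ^ 2) (hK1 : K ≤ 1) (hS : 3 / 8 ≤ S)
    (hS1 : S ≤ 1 / 2) : K ≤ 73 / 1000 + 489 / 1000 * (S - 3 / 8) := by
  by_contra hc
  push Not at hc
  have c2 := mul_pos (sub_pos.2 hc) (show 0 < 2 - K -
    (73 / 1000 + 489 / 1000 * (S - 3 / 8)) by linear_combination 2 * hK1 + hc)
  have c3 := mul_nonneg (sub_nonneg.2 hS) (sub_nonneg.2 hS1)
  exact absurd c2 (not_lt.mpr (by linear_combination (1239121 / 1000000) * c3 + hKe + (13727 / 8000000) * hS))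

theorem key_large {h K S : ℝ} (h1 : 0.866 < h) (hS : 3 / 8 ≤ S) (hS1 : S ≤ 1 / 2)
    (hK0 : S ^ 2 / 2 ≤ K) (hK : K ≤ 73 / 1000 + 489 / 1000 * (S - 3 / 8)) :
    (19 / 1000 + 31 / 100 * (1 / 2 - S)) * (8 * (68127 / 100000)) ≤
      3 * ((1 / 2 - 22 / 3 * K + 8 * h * S * K - 6 * K ^ 2) -
        (1 + 4 * K - 4 * h * S) * (87 / 100)) := by
  have hK00 : 0 ≤ K := (by positivity : 0 ≤ S ^ 2 / 2).trans hK0
  have hS0 : 0 ≤ S := by linear_combination hS
  have c3 : 0 ≤ (h - 0.866) * (S * K) := mul_nonneg (by linear_combination h1) (mul_nonneg hS0 hK00)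
  have c4 : 0 ≤ (h - 0.866) * S := mul_nonneg (by linear_combination h1) hS0
  have c5 := mul_nonneg (sub_nonneg.2 hK) hK00
  have c6 := mul_nonneg (sub_nonneg.2 hK) hS0
  have c7 := mul_nonneg (sub_nonneg.2 hS) (sub_nonneg.2 hS1)
  linear_combination 24 * c3 + (261 / 25) * c4 + 18 * c5 + (97849 / 2000) * c6 + (121813 / 2000) * (mul_nonneg (sub_nonneg.mpr hK) (sub_nonneg.mpr hS1)) +
    (3756351 / 2500000) * (mul_nonneg (sub_nonneg.mpr hS) (sub_nonneg.mpr hS)) + (2722911 / 625000) * (mul_nonneg (sub_nonneg.mpr hS1) (sub_nonneg.mpr hS1))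

/-- A positive lower bound at the edge for large angles. -/
theorem psi_edge_large (hA : Ang C S p q) (hS : 3 / 8 ≤ S) :
    19 / 1000 + 31 / 100 * (1 / 2 - S) ≤ psi C p q (q - h0) := by
  rw [psi_edge_eq hA]
  have h0' := psi_edge hA
  rw [psi_edge_eq hA] at h0'
  have h1 := edge_sq hA
  have hh := h0_sq
  have h2 := h0_gt
  have h3 := h0_lt
  have hS1 := hA.S1
  have hS0 := hA.S0
  have hK2 := hA.K_ge
  have hC1 := hA.C0
  have hq1 := hA.q_le
  have hq2 := hA.h_le_q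
  obtain ⟨K, hKd⟩ : ∃ K, K = 1 - C := ⟨_, rfl⟩
  have hKe : K * (2 - K) = S ^ 2 := by rw [hKd]; linear_combination hA.K_eq
  rw [← hKd] at h1 h0' hK2 ⊢
  have hx : (h0 - S) ^ 2 ≤ 1 := by
    rw [sq_le_one_iff_abs_le_one, abs_le]
    constructor <;> linarith
  have hB := g_sq hx
  have hB0 := g_nonneg (h0 - S)
  obtain ⟨B, hBd⟩ : ∃ B, B = g (h0 - S) := ⟨_, rfl⟩
  rw [← hBd] at hB hB0 h1 h0' ⊢
  have eB : 87 / 100 ≤ B := by
    have c1 : 0 ≤ (h0 - 0.866) * S := mul_nonneg (by linear_combination h2) hS0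
    have c2 := mul_nonneg (sub_nonneg.2 hS) (sub_nonneg.2 hS1)
    have : (87 / 100) ^ 2 ≤ B ^ 2 := by
      rw [hB]
      linear_combination hh + 2 * c1 + c2 + (857 / 1000) * hS
    exact le_of_sq_le_sq' this hB0
  have hA1 : g (2 * h0 - q) ≤ 68127 / 100000 := by
    apply g_le (by norm_num)
    have k1 : 0 ≤ 2 * h0 - q - 73204 / 100000 := by
      have : 0.86602 < h0 := by exact not_le.mp (fun hg__ => absurd hg__ (not_le.mpr (by linear_combination -(50000 / 86601) * hh + (50000 / 86601) * (mul_nonneg (sub_nonneg.mpr hg__) (sub_nonneg.mpr (le_of_lt h2))))))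
      linear_combination hq1 + 2 * this
    linear_combination (18301 / 12500) * k1 + (mul_nonneg k1 k1)
  have hA0 := g_nonneg (2 * h0 - q)
  obtain ⟨A, hAd⟩ : ∃ A, A = g (2 * h0 - q) := ⟨_, rfl⟩
  rw [← hAd] at hA1 hA0 h1 h0' ⊢
  obtain ⟨M, hMd⟩ : ∃ M, M = 3 * B + (1 / 2 + 2 * K - 2 * h0 * S) := ⟨_, rfl⟩
  rw [← hMd] at h1 h0' ⊢
  have e3 := K_chord hKe (by linear_combination hC1 + hKd) hS hS1
  have a1 : 1 + 4 * K - 4 * h0 * S ≤ 0 := by
    have c1 : 0 ≤ (h0 - 0.866) * S := mul_nonneg (by linear_combination h2) hS0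
    linear_combination (377 / 250) * hS + 4 * e3 + 4 * c1
  have e2 : (1 + 4 * K - 4 * h0 * S) * B ≤ (1 + 4 * K - 4 * h0 * S) * (87 / 100) :=
    mul_le_mul_of_nonpos_left eB a1
  have key := key_large h2 hS hS1 hK2 e3
  -- `(4 A - M) (4 A + M)` is this number
  have f1 : (4 * A - M) * (4 * A + M) = 3 * ((1 / 2 - 22 / 3 * K + 8 * h0 * S * K - 6 * K ^ 2) -
        (1 + 4 * K - 4 * h0 * S) * B) := by linear_combination h1
  have f2 : (4 * A - M) * (4 * A + M) ≤ (4 * A - M) * (8 * (68127 / 100000)) := by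
    apply mul_le_mul_of_nonneg_left _ h0'
    linear_combination 8 * hA1 + h0'
  have f3 : (19 / 1000 + 31 / 100 * (1 / 2 - S)) * (8 * (68127 / 100000)) ≤
      (4 * A - M) * (8 * (68127 / 100000)) := by linear_combination -h1 + 3 * e2 + key + f2
  exact le_of_mul_le_mul_right f3 (by norm_num)

end Pool.Agent.Strip051.N2
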